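import Pool.Agent.Helper62.HX.Stm
import Pool.Agent.Helper18.BL.HR

/-! # Project HX: the Hasse-Witt functionals in even degree are linearly independent -/

set_option autoImplicit false

open Polynomial Matrix Finset

namespace Pool.Agent.Helper41.HX

open Pool.Agent.Helper62.BM Pool.Agent.Helper18.BM Pool.Agent.Helper62.HX

section

variable {K : Type} [Field K] (p : ℕ) [Fact p.Prime] [CharP K p]

/-- All `n` functionals of a squarefree polynomial of degree `2 n` are independent on the polynomials of degree at most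
`2 n - 2`. -/
theorem core {n q : ℕ} (hp2 : p = 2 * q + 1) (hq : 1 ≤ q) (hn : 1 ≤ n) (hnp : n ≤ p) (h : K[X])
    (hdeg : h.natDegree = 2 * n) (hsep : h.Separable) (P : K[X])
    (hP' : derivative P = 0) (hPd : P.natDegree + p ≤ p * n)
    (hΛ : ∀ l < 2 * n - 1, (X ^ l * (h ^ q * P)).coeff (p * n - 1) = 0) : P = 0 := by
  have hp : p.Prime := Fact.out
  have hp0 : 0 < p := hp.pos
  have hne : h ≠ 0 := by
    intro h0
    rw [h0, natDegree_zero] at hdeg
    omega
  set N := p * n with hN
  have hNe : N = 2 * n * q + n := by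
    rw [hN, hp2]
    ring
  have hN3 : 3 * n ≤ N := Nat.mul_le_mul_right n (by omega)
  have hpN : p ∣ N := dvd_mul_right _ _
  have hFne : h ^ q ≠ 0 := pow_ne_zero _ hne
  have hFd : (h ^ q).natDegree = 2 * n * q := by
    rw [natDegree_pow, hdeg]
    ring
  set G : K[X] := h ^ q * P with hG
  set M := N - 2 * n + 1 with hM
  have hGc : ∀ k, M ≤ k → k < N → G.coeff k = 0 := by
    intro k hk hk'
    have h1 := hΛ (N - 1 - k) (by omega)
    rw [coeff_X_pow_mul', if_pos (by omega)] at h1
    rw [← h1]
    congr 1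
    omega
  have hGdeg : G.natDegree + p + n ≤ N + N := by
    have : G.natDegree ≤ (h ^ q).natDegree + P.natDegree := natDegree_mul_le
    omega
  have hGd : ∀ k, N + M ≤ k → G.coeff k = 0 := by
    intro k hk
    apply coeff_eq_zero_of_natDegree_lt
    omega
  obtain ⟨A, R, hGAR, hA, hR⟩ := split_poly G N M (by omega) hGd hGc
  have hpc : (C ((2 * q + 1 : ℕ) : K) : K[X]) = 0 := by
    rw [← hp2, CharP.cast_eq_zero, map_zero]
  have h2 : (C (2 : K) : K[X]) ≠ 0 := by
    rw [Ne, C_eq_zero]
    intro h0
    have h1 : ((2 : ℕ) : K) = 0 := by exact_mod_cast h0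
    rw [CharP.cast_eq_zero_iff K p] at h1
    have := Nat.le_of_dvd (by norm_num) h1
    omega
  have hXN : derivative (X ^ N : K[X]) = 0 := by
    rw [derivative_X_pow, (CharP.cast_eq_zero_iff K p N).mpr hpN]
    simp
  -- the differential equation
  have hDG : C 2 * (h * derivative G) + derivative h * G = 0 := by
    obtain ⟨q', rfl⟩ : ∃ q', q = q' + 1 := ⟨q - 1, by omega⟩
    have e : C 2 * (h * (C (((q' + 1 : ℕ) : K)) * h ^ q' * derivative h * P)) +
        derivative h * (h ^ (q' + 1) * P) =
        C ((2 * (q' + 1) + 1 : ℕ) : K) * (h ^ (q' + 1) * derivative h * P) := by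
      simp only [Nat.cast_add, Nat.cast_mul, Nat.cast_one, map_add, map_mul, map_one,
        Nat.cast_ofNat]
      ring
    rw [hG, derivative_mul, hP', mul_zero, add_zero, derivative_pow, Nat.add_sub_cancel, e, hpc,
      zero_mul]
  have hsp : X ^ N * (C 2 * (h * derivative A) + derivative h * A) +
      (C 2 * (h * derivative R) + derivative h * R) = 0 := by
    rw [← hDG, hGAR, derivative_add, derivative_mul (f := X ^ N), hXN]
    ring
  have hRd : R.natDegree + 2 * n ≤ N := by
    by_contra hcon
    have h1 : M ≤ R.natDegree := by omega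
    have h3 : R = 0 := leadingCoeff_eq_zero.mp (hR _ h1)
    rw [h3, natDegree_zero] at h1
    omega
  have hZR : ∀ k, N ≤ k → (C 2 * (h * derivative R) + derivative h * R).coeff k = 0 := by
    intro k hk
    apply coeff_eq_zero_of_natDegree_lt
    refine lt_of_le_of_lt (natDegree_add_le _ _) (max_lt ?_ ?_)
    · have h1 : (C 2 * (h * derivative R)).natDegree ≤ (h * derivative R).natDegree :=
        natDegree_C_mul_le _ _
      have h3 : (h * derivative R).natDegree ≤ h.natDegree + (derivative R).natDegree :=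
        natDegree_mul_le
      have h4 := natDegree_derivative_le R
      omega
    · have h3 : (derivative h * R).natDegree ≤ (derivative h).natDegree + R.natDegree :=
        natDegree_mul_le
      have h4 := natDegree_derivative_le h
      omega
  have hZA : C 2 * (h * derivative A) + derivative h * A = 0 := by
    ext k
    have h3 := congrArg (fun Q : K[X] => Q.coeff (k + N)) hsp
    simp only [coeff_add (_ : K[X]) (_ : K[X]), coeff_zero] at h3
    have h4 := hZR (k + N) (by omega)
    rw [coeff_add] at h4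
    rw [coeff_X_pow_mul, h4, add_zero] at h3
    rw [coeff_zero, coeff_add]
    simpa using h3
  have hEA : derivative (h ^ (q + 1) * A) = 0 := by
    have e : C 2 * derivative (h ^ (q + 1) * A) =
        h ^ q * (C 2 * (h * derivative A) + derivative h * A) +
          C ((2 * q + 1 : ℕ) : K) * (h ^ q * derivative h * A) := by
      rw [derivative_mul, derivative_pow, Nat.add_sub_cancel]
      simp only [Nat.cast_add, Nat.cast_mul, Nat.cast_one, map_add, map_mul, map_one,
        Nat.cast_ofNat, map_ofNat]
      ring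
    rw [hZA, hpc, mul_zero, zero_mul, add_zero] at e
    exact (mul_eq_zero.mp e).resolve_left h2
  have hA0 : A = 0 := by
    by_contra hA0
    have hdvd : h ^ q ∣ A :=
      Pool.Agent.Helper18.BL.pow_dvd_of_der p hsep hne q (q + 1) A (by omega) (by omega) hEA
    have h1 := natDegree_le_of_dvd hdvd hA0
    have h3 : G.coeff (A.natDegree + N) = A.coeff A.natDegree := by
      rw [hGAR, coeff_add, coeff_X_pow_mul, hR _ (by omega), add_zero]
    rw [coeff_eq_zero_of_natDegree_lt (by omega)] at h3
    exact hA0 (leadingCoeff_eq_zero.mp h3.symm)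
  by_contra hP0
  have hG0 : G ≠ 0 := mul_ne_zero hFne hP0
  have h1 : G.natDegree = (h ^ q).natDegree + P.natDegree := natDegree_mul hFne hP0
  rw [hA0, mul_zero, zero_add] at hGAR
  have h3 := hR G.natDegree (by omega)
  rw [← hGAR] at h3
  exact hG0 (leadingCoeff_eq_zero.mp h3)

/-- The residue at infinity vanishes on `V`. -/
theorem lam_zero {g q : ℕ} (hp2 : p = 2 * q + 1) (hgp : 2 * g + 2 < p) (G H : K[X])
    (hG : G.natDegree = g + 1) (hH : H.natDegree ≤ g) (l : Fin (2 * g)) :
    (bE g G l * (G ^ 2 + H) ^ q).coeff (p * (g + 1) - 1) = 0 := by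
  have hp : p.Prime := Fact.out
  have hp0 : 0 < p := hp.pos
  have hNe : p * (g + 1) = 2 * (g + 1) * q + (g + 1) := by
    rw [hp2]
    ring
  have hF : (G ^ 2 + H).natDegree ≤ 2 * (g + 1) := by
    refine (natDegree_add_le _ _).trans (max_le ?_ (by omega))
    rw [natDegree_pow, hG]
  unfold bE
  split_ifs with hl
  · apply coeff_eq_zero_of_natDegree_lt
    have h1 : (X ^ (l : ℕ) * (G ^ 2 + H) ^ q : K[X]).natDegree ≤
        (X ^ (l : ℕ) : K[X]).natDegree + ((G ^ 2 + H) ^ q).natDegree := natDegree_mul_le
    have h2 : ((G ^ 2 + H) ^ q).natDegree ≤ q * (2 * (g + 1)) :=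
      natDegree_pow_le.trans (Nat.mul_le_mul_left _ hF)
    rw [natDegree_X_pow] at h1
    have h3 : q * (2 * (g + 1)) = 2 * (g + 1) * q := by ring
    omega
  · have hl2 := l.2
    obtain ⟨j, hj⟩ : ∃ j, (l : ℕ) - g = j := ⟨_, rfl⟩
    rw [hj]
    have hjg : j < g := by omega
    have hT := geom_sum₂_mul (G ^ 2 + H) (G ^ 2) q
    set T : K[X] := ∑ i ∈ range q, (G ^ 2 + H) ^ i * (G ^ 2) ^ (q - 1 - i) with hTdef
    have hTd : T.natDegree ≤ 2 * (g + 1) * (q - 1) := by
      refine natDegree_sum_le_of_forall_le _ _ fun i hi => ?_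
      rw [Finset.mem_range] at hi
      have h1 : ((G ^ 2 + H) ^ i).natDegree ≤ i * (2 * (g + 1)) :=
        natDegree_pow_le.trans (Nat.mul_le_mul_left _ hF)
      have h2 : ((G ^ 2) ^ (q - 1 - i)).natDegree = (q - 1 - i) * (2 * (g + 1)) := by
        rw [natDegree_pow, natDegree_pow, hG]
      have h3 : ((G ^ 2 + H) ^ i * (G ^ 2) ^ (q - 1 - i)).natDegree ≤
        ((G ^ 2 + H) ^ i).natDegree + ((G ^ 2) ^ (q - 1 - i)).natDegree := natDegree_mul_le
      have h4 : i * (2 * (g + 1)) + (q - 1 - i) * (2 * (g + 1)) = 2 * (g + 1) * (q - 1) := by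
        rw [← add_mul, mul_comm]
        congr 1
        omega
      omega
    have e : X ^ j * G * (G ^ 2 + H) ^ q = X ^ j * G ^ p + X ^ j * G * (T * H) := by
      have h1 : (G ^ 2 + H) ^ q = (G ^ 2) ^ q + T * H := by
        have h0 : G ^ 2 + H - G ^ 2 = H := by ring
        rw [h0] at hT
        rw [hT]
        ring
      rw [h1, hp2]
      ring
    have e1 : (X ^ j * G * (T * H)).coeff (p * (g + 1) - 1) = 0 := by
      apply coeff_eq_zero_of_natDegree_lt
      have h1 : (X ^ j * G * (T * H)).natDegree ≤ (X ^ j * G).natDegree + (T * H).natDegree :=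
        natDegree_mul_le
      have h2 : (X ^ j * G).natDegree ≤ (X ^ j : K[X]).natDegree + G.natDegree :=
        natDegree_mul_le
      have h3 : (T * H).natDegree ≤ T.natDegree + H.natDegree := natDegree_mul_le
      rw [natDegree_X_pow] at h2
      obtain ⟨q', rfl⟩ : ∃ q', q = q' + 1 := ⟨q - 1, by omega⟩
      rw [Nat.add_sub_cancel] at hTd
      have h4 : 2 * (g + 1) * (q' + 1) = 2 * (g + 1) * q' + 2 * (g + 1) := by ring
      omega
    have e2 : (X ^ j * G ^ p).coeff (p * (g + 1) - 1) = 0 := by
      have hd : derivative (X ^ (j + 1) * G ^ p) = C (((j + 1 : ℕ) : K)) * (X ^ j * G ^ p) := by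
        rw [derivative_mul, derivative_pow (p := G), derivative_X_pow, Nat.add_sub_cancel,
          CharP.cast_eq_zero K p]
        simp only [map_zero, zero_mul, mul_zero, add_zero]
        ring
      have h1 := coeff_der' p (X ^ (j + 1) * G ^ p) (N := p * (g + 1)) (dvd_mul_right _ _)
        (Nat.mul_pos hp0 (Nat.succ_pos _))
      rw [hd, coeff_C_mul] at h1
      refine (mul_eq_zero.mp h1).resolve_left ?_
      rw [CharP.cast_eq_zero_iff K p]
      intro hdvd
      have := Nat.le_of_dvd (Nat.succ_pos j) hdvd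
      omega
    rw [e, coeff_add, e1, e2, add_zero]

end

theorem h_hwrank : H_HWrank := by
  intro F _ p _ _ g G H hg hgp hGm hGd hHd hsep c hc
  have hp : p.Prime := Fact.out
  obtain ⟨q, hq⟩ : ∃ q, p = 2 * q + 1 := by
    rcases hp.eq_two_or_odd' with h2 | ⟨q, hq⟩
    · omega
    · exact ⟨q, hq⟩
  have hq2 : (p - 1) / 2 = q := by omega
  have hNe : p * (g + 1) = 2 * (g + 1) * q + (g + 1) := by
    rw [hq]
    ring
  set h : F[X] := G ^ 2 + H with hh
  have hhd : h.natDegree = 2 * (g + 1) := by
    rw [hh, natDegree_add_eq_left_of_natDegree_lt, natDegree_pow, hGd]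
    rw [natDegree_pow, hGd]
    omega
  have hhm : h.Monic := by
    rw [hh]
    refine (hGm.pow 2).add_of_left ?_
    refine degree_lt_degree ?_
    rw [natDegree_pow, hGd]
    omega
  set P0 : F[X] := ∑ i : Fin g, monomial (p * (g - (i : ℕ))) (c i) with hP0
  set κ : F := (X ^ g * (h ^ q * P0)).coeff (p * (g + 1) - 1) with hκ
  set P : F[X] := P0 - C κ with hP
  have hP' : derivative P = 0 := by
    rw [hP, derivative_sub, derivative_C, sub_zero, hP0, derivative_sum]
    refine Finset.sum_eq_zero fun i _ => ?_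
    rw [derivative_monomial]
    have : ((p * (g - (i : ℕ)) : ℕ) : F) = 0 :=
      (CharP.cast_eq_zero_iff F p _).mpr (dvd_mul_right _ _)
    rw [this, mul_zero, monomial_zero_right]
  have hPd : P.natDegree + p ≤ p * (g + 1) := by
    have h1 : P.natDegree ≤ p * g := by
      rw [hP]
      refine (natDegree_sub_le _ _).trans (max_le ?_ ?_)
      · rw [hP0]
        refine natDegree_sum_le_of_forall_le _ _ fun i _ => ?_
        refine (natDegree_monomial_le _).trans ?_
        exact Nat.mul_le_mul_left p (by omega)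
      · rw [natDegree_C]
        exact Nat.zero_le _
    have h2 : p * (g + 1) = p * g + p := by ring
    omega
  -- the functional
  have hlin : ∀ u : F[X], (u * (h ^ q * P)).coeff (p * (g + 1) - 1) =
      (u * (h ^ q * P0)).coeff (p * (g + 1) - 1) -
        κ * (u * h ^ q).coeff (p * (g + 1) - 1) := by
    intro u
    have e : u * (h ^ q * P) = u * (h ^ q * P0) - C κ * (u * h ^ q) := by
      rw [hP]
      ring
    rw [e, coeff_sub, coeff_C_mul]
  have hb : ∀ l : Fin (2 * g), (bE g G l * (h ^ q * P)).coeff (p * (g + 1) - 1) = 0 := by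
    intro l
    rw [hlin, lam_zero p hq hgp G H hGd hHd l, mul_zero, sub_zero]
    have h1 := congrFun hc l
    rw [Matrix.vecMul, dotProduct] at h1
    simp only [YE, Matrix.of_apply, Pi.zero_apply, hq2] at h1
    rw [← h1, hP0, Finset.mul_sum, Finset.mul_sum, finsetSum_coeff]
    refine Finset.sum_congr rfl fun i _ => ?_
    have h2 : bE g G l * (h ^ q * monomial (p * (g - (i : ℕ))) (c i)) =
        C (c i) * (X ^ (p * (g - (i : ℕ))) * (bE g G l * h ^ q)) := by
      rw [← C_mul_X_pow_eq_monomial]
      ring
    rw [h2, coeff_C_mul, coeff_X_pow_mul']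
    have h3 : p * (g - (i : ℕ)) + p * ((i : ℕ) + 1) = p * (g + 1) := by
      rw [← mul_add]
      congr 1
      omega
    have h4 : 0 < p * ((i : ℕ) + 1) := Nat.mul_pos hp.pos (Nat.succ_pos _)
    rw [if_pos (by omega)]
    congr 2
    omega
  have hxg : (X ^ g * (h ^ q * P)).coeff (p * (g + 1) - 1) = 0 := by
    rw [hlin, ← hκ]
    have h1 : (X ^ g * h ^ q).coeff (p * (g + 1) - 1) = 1 := by
      have h2 : (X ^ g * h ^ q : F[X]).Monic := (monic_X_pow g).mul (hhm.pow q)
      have h3 : (X ^ g * h ^ q : F[X]).natDegree = p * (g + 1) - 1 := by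
        rw [(monic_X_pow g).natDegree_mul (hhm.pow q), natDegree_X_pow, hhm.natDegree_pow, hhd]
        have h4 : q * (2 * (g + 1)) = 2 * (g + 1) * q := by ring
        omega
      rw [← h3]
      exact h2
    rw [h1, mul_one, sub_self]
  have hΛ : ∀ l < 2 * (g + 1) - 1, (X ^ l * (h ^ q * P)).coeff (p * (g + 1) - 1) = 0 := by
    intro l
    induction l using Nat.strong_induction_on with
    | _ l ih =>
      intro hl
      rcases lt_trichotomy l g with h1 | h1 | h1
      · have h2 := hb ⟨l, by omega⟩
        unfold bE at h2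
        rwa [if_pos h1] at h2
      · rw [h1]
        exact hxg
      · obtain ⟨j, rfl⟩ : ∃ j, l = j + (g + 1) := ⟨l - (g + 1), by omega⟩
        have h2 := hb ⟨g + j, by omega⟩
        unfold bE at h2
        rw [if_neg (by simp)] at h2
        have h3 : ((⟨g + j, by omega⟩ : Fin (2 * g)) : ℕ) - g = j := by simp
        rw [h3] at h2
        have h4 : G = X ^ (g + 1) + ∑ i ∈ range (g + 1), C (G.coeff i) * X ^ i := by
          conv_lhs => rw [as_sum_range' G (g + 2) (by omega), Finset.sum_range_succ]
          rw [add_comm]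
          congr 1
          · have h5 : G.coeff (g + 1) = 1 := by
              rw [← hGd]
              exact hGm
            rw [h5, monomial_one_right_eq_X_pow]
          · refine Finset.sum_congr rfl fun i _ => ?_
            rw [C_mul_X_pow_eq_monomial]
        have h5 : X ^ j * G * (h ^ q * P) = X ^ (j + (g + 1)) * (h ^ q * P) +
            ∑ i ∈ range (g + 1), C (G.coeff i) * (X ^ (i + j) * (h ^ q * P)) := by
          conv_lhs => rw [h4]
          rw [mul_add, add_mul, ← pow_add, Finset.mul_sum, Finset.sum_mul]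
          congr 1
          refine Finset.sum_congr rfl fun i _ => ?_
          rw [pow_add]
          ring
        rw [h5, coeff_add, finsetSum_coeff, Finset.sum_eq_zero, add_zero] at h2
        · exact h2
        · intro i hi
          rw [Finset.mem_range] at hi
          rw [coeff_C_mul, ih (i + j) (by omega) (by omega), mul_zero]
  have hPz : P = 0 := core p hq (by omega) (by omega) (by omega) h hhd hsep P hP' hPd hΛ
  funext i
  have h1 : P.coeff (p * (g - (i : ℕ))) = c i := by
    have h0 : 0 < p * (g - (i : ℕ)) := Nat.mul_pos hp.pos (by omega)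
    rw [hP, coeff_sub, coeff_C, if_neg (by omega), sub_zero, hP0, finsetSum_coeff,
      Finset.sum_eq_single i]
    · rw [coeff_monomial, if_pos rfl]
    · intro b _ hb
      rw [coeff_monomial, if_neg]
      intro h
      apply hb
      have h5 := Nat.eq_of_mul_eq_mul_left hp.pos h
      ext
      omega
    · intro h
      exact absurd (Finset.mem_univ i) h
  rw [← h1, hPz, coeff_zero]
  rfl

end Pool.Agent.Helper41.HX
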